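import Pool.Agent.Helper6.OB.Goals3

/-!
# Project OB: sequences of variables
-/

set_option autoImplicit false

namespace Pool.Agent.Helper12.OB

open Pool.Agent.Helper6.CS Pool.Agent.Helper6.OB
open Pool.Agent.Helper41.CS (len_app get_app_lt get_app_ge len_sg get_sg)

set_option synthInstance.maxSize 1000000000

variable {M : Type} [World M]

/-- `v` has the variables `a + e i` at the positions `s i`, all other letters are `< a`. -/
def Pos (a : M) (m : ℕ) (e : Fin m → M) (v : Wd M) : Prop :=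
  ∃ s : Fin m → M, (∀ i j, i < j → s i < s j) ∧ (∀ i, s i < v.len ∧ v.get (s i) = a + e i) ∧
    ∀ p, p < v.len → (∀ i, p ≠ s i) → v.get p < a

theorem pos_split (a : M) (m : ℕ) (e : Fin (m + 1) → M) (v : Wd M) (h : Pos a (m + 1) e v) :
    ∃ z v₁ : Wd M, v = z ++ Wd.sg (a + e 0) ++ v₁ ∧ Over a z ∧
      Pos a m (fun i => e i.succ) v₁ := by
  obtain ⟨s, hmono, hpos, hrest⟩ := h
  obtain ⟨h0, h0'⟩ := hpos 0
  obtain ⟨k, hk⟩ := World.exists_add _ _ (World.add_one_le h0)
  have hadd : IFn M fun i : M => v.get (s 0 + 1 + i) := inferInstance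
  have hfst : ∀ i, s 0 ≤ s i := by
    intro i
    rcases Fin.eq_zero_or_eq_succ i with rfl | ⟨j, rfl⟩
    · exact le_rfl
    · exact (hmono 0 j.succ (Fin.succ_pos j)).le
  refine ⟨Wd.of (s 0) v.get, Wd.of k fun i => v.get (s 0 + 1 + i), ?_, ?_, ?_⟩
  · have hl : (Wd.of (s 0) v.get ++ Wd.sg (a + e 0)).len = s 0 + 1 := by
      rw [len_app, Wd.len_of, len_sg]
    refine Wd.ext' (by rw [len_app, hl, Wd.len_of, hk]) fun i hi => ?_
    rcases lt_or_ge i (s 0 + 1) with h1 | h1
    · rw [get_app_lt (by rwa [hl])]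
      rcases lt_or_eq_of_le ((World.lt_succ _ _).1 h1) with h2 | h2
      · rw [get_app_lt (by rwa [Wd.len_of]), Wd.get_of_lt _ _ h2]
      · have h3 := get_app_ge (Wd.of (s 0) v.get) (Wd.sg (a + e 0)) 0
        rw [Wd.len_of, add_zero, get_sg] at h3
        rw [h2, h3, h0']
    · obtain ⟨j, rfl⟩ := World.exists_add _ _ h1
      have h3 := get_app_ge (Wd.of (s 0) v.get ++ Wd.sg (a + e 0))
        (Wd.of k fun i => v.get (s 0 + 1 + i)) j
      rw [hl] at h3
      rw [hk] at hi
      rw [h3, Wd.get_of_lt _ _ (lt_of_add_lt_add_left hi)]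
  · intro i hi
    rw [Wd.len_of] at hi
    rw [Wd.get_of_lt _ _ hi]
    exact hrest i (hi.trans h0) fun j hj => absurd (hfst j) (by rw [← hj]; exact not_le.2 hi)
  · have hex : ∀ i : Fin m, ∃ t, s i.succ = s 0 + 1 + t := fun i =>
      World.exists_add _ _ (World.add_one_le (hmono 0 i.succ (Fin.succ_pos i)))
    choose t ht using hex
    have hlt : ∀ i, t i < k := by
      intro i
      have h1 := (hpos i.succ).1
      rw [ht, hk] at h1
      exact lt_of_add_lt_add_left h1
    refine ⟨t, ?_, ?_, ?_⟩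
    · intro i j hij
      have h1 := hmono i.succ j.succ (Fin.succ_lt_succ_iff.2 hij)
      rw [ht, ht] at h1
      exact lt_of_add_lt_add_left h1
    · intro i
      rw [Wd.len_of, Wd.get_of_lt _ _ (hlt i), ← ht]
      exact ⟨hlt i, (hpos i.succ).2⟩
    · intro p hp hne
      rw [Wd.len_of] at hp
      rw [Wd.get_of_lt _ _ hp]
      apply hrest
      · rw [hk]
        exact add_lt_add_right hp _
      · intro i
        rcases Fin.eq_zero_or_eq_succ i with rfl | ⟨j, rfl⟩
        · exact ne_of_gt (lt_of_lt_of_le ((World.lt_succ _ _).2 le_rfl)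
            (le_add_of_nonneg_right (World.zero_le' _)))
        · intro hj
          rw [ht] at hj
          exact hne j (add_left_cancel hj)

theorem t_PAT : G_PAT := by
  intro M _ a n m
  induction m with
  | zero =>
    intro e _ v v' h h'
    obtain ⟨s, -, -, h⟩ := h
    obtain ⟨s', -, -, h'⟩ := h'
    exact ⟨fun i hi => h i hi fun j => j.elim0, fun i hi => h' i hi fun j => j.elim0⟩
  | succ m ih =>
    intro e he v v' h h'
    obtain ⟨z, v₁, hv, hz, h1⟩ := pos_split a m e v h
    obtain ⟨z', v₁', hv', hz', h1'⟩ := pos_split a m e v' h'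
    exact ⟨z, z', a + e 0, v₁, v₁', hv, hv', hz, hz',
      le_add_of_nonneg_right (World.zero_le' _), by gcongr; exact he 0,
      ih (fun i => e i.succ) (fun i => he i.succ) v₁ v₁' h1 h1'⟩

end Pool.Agent.Helper12.OB
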