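import Pool.Agent.Helper79.OB.GoalsC
import Pool.Agent.Helper73.OB.Words

set_option autoImplicit false

open MeasureTheory
open scoped ENNReal

namespace Pool.Agent.Helper12.OB

open Pool.Agent.Helper73.OB Pool.Agent.Helper79.OB

lemma pre_le {X : Type} [MeasurableSpace X] {μ : Measure X} {T : X → X}
    (hT : MeasurePreserving T μ μ) (E : Set X) : μ (T ⁻¹' E) ≤ μ E := by
  calc μ (T ⁻¹' E) ≤ μ (T ⁻¹' toMeasurable μ E) :=
        measure_mono (Set.preimage_mono (subset_toMeasurable μ E))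
    _ = μ (toMeasurable μ E) :=
        hT.measure_preimage (measurableSet_toMeasurable μ E).nullMeasurableSet
    _ = μ E := measure_toMeasurable E

/-- The points with a `g`-word of length at most `k` which is not replaced by an `f`-word with the
factor `m`. -/
def Bd {S X : Type} (f g : S → X → X) (m k : ℕ) : Set X :=
  {x | ∃ w : List S, w.length ≤ k ∧ ¬ ∃ u : List S, u.length ≤ w.length * m ∧
    run f u x = run g w x}

lemma bd_le {S X : Type} [Fintype S] [MeasurableSpace X] (μ : Measure X)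
    (f g : S → X → X) (hg : ∀ a, MeasurePreserving (g a) μ μ) (m : ℕ) (τ : ℝ≥0∞)
    (hτ : ∀ a, μ {x | ¬ ∃ w : List S, w.length ≤ m ∧ run f w x = g a x} ≤ τ) (k : ℕ) :
    μ (Bd f g m k) + τ ≤ ((Fintype.card S : ℝ≥0∞) + 1) ^ k * τ := by
  induction k with
  | zero =>
    have h0 : Bd f g m 0 = ∅ := by
      ext x
      simp only [Bd, Set.mem_ofPred_eq, Set.mem_empty_iff_false, iff_false]
      rintro ⟨w, hw, h⟩
      have hw' : w = [] := List.length_eq_zero_iff.1 (Nat.le_zero.1 hw)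
      subst hw'
      exact h ⟨[], by simp, rfl⟩
    rw [h0]
    simp
  | succ k ih =>
    have hsub : Bd f g m (k + 1) ⊆ ⋃ b : S,
        ({x | ¬ ∃ w : List S, w.length ≤ m ∧ run f w x = g b x} ∪ (g b) ⁻¹' (Bd f g m k)) := by
      rintro x ⟨w, hw, h⟩
      cases w with
      | nil => exact absurd ⟨[], by simp, rfl⟩ h
      | cons b w =>
        rw [Set.mem_iUnion]
        refine ⟨b, ?_⟩
        by_contra hc
        rw [Set.mem_union, not_or] at hc
        obtain ⟨h1, h2⟩ := hc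
        rw [Set.mem_ofPred_eq, not_not] at h1
        obtain ⟨u, hu, hux⟩ := h1
        have h3 : ∃ u' : List S, u'.length ≤ w.length * m ∧
            run f u' (g b x) = run g w (g b x) := by
          by_contra h4
          exact h2 ⟨w, by simpa using hw, h4⟩
        obtain ⟨u', hu', hux'⟩ := h3
        apply h
        refine ⟨u ++ u', ?_, ?_⟩
        · rw [List.length_append, List.length_cons]
          have : (w.length + 1) * m = w.length * m + m := by ring
          omega
        · rw [run_append, hux, hux']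
          rfl
    have h1 : μ (Bd f g m (k + 1)) ≤ (Fintype.card S : ℝ≥0∞) * (τ + μ (Bd f g m k)) := by
      calc μ (Bd f g m (k + 1)) ≤ _ := measure_mono hsub
        _ ≤ ∑ b : S, μ ({x | ¬ ∃ w : List S, w.length ≤ m ∧ run f w x = g b x} ∪
            (g b) ⁻¹' (Bd f g m k)) := measure_iUnion_fintype_le μ _
        _ ≤ ∑ _b : S, (τ + μ (Bd f g m k)) := by
            refine Finset.sum_le_sum fun b _ => ?_
            refine (measure_union_le _ _).trans ?_
            exact add_le_add (hτ b) (pre_le (hg b) _)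
        _ = (Fintype.card S : ℝ≥0∞) * (τ + μ (Bd f g m k)) := by
            rw [Finset.sum_const, Finset.card_univ, nsmul_eq_mul]
    set s : ℝ≥0∞ := (Fintype.card S : ℝ≥0∞) with hs
    have h2 : τ ≤ (s + 1) ^ k * τ := le_trans le_add_self ih
    calc μ (Bd f g m (k + 1)) + τ ≤ s * (τ + μ (Bd f g m k)) + τ := by gcongr
      _ ≤ s * ((s + 1) ^ k * τ) + (s + 1) ^ k * τ := by
          rw [add_comm τ]
          gcongr
      _ = (s + 1) ^ (k + 1) * τ := by ring

theorem th_tailt (h1 : Pool.Agent.Helper79.OB.S_NUMT) : Pool.Agent.Helper79.OB.S_TAILT := by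
  intro S X _ _ μ _ f g h hg C₁ c₁ α₁ C₂ c₂ α₂ hc₁ hα₁ hc₂ hα₂ hT1 hT2
  obtain ⟨C, c, α, hc, hα, hN⟩ := h1 (Real.log ((Fintype.card S : ℝ) + 1)) (max C₁ 0) c₁ α₁
    (max C₂ 0) c₂ α₂ hc₁ hα₁ hc₂ hα₂
  refine ⟨C, c, α, hc, hα, ?_⟩
  intro N a
  obtain ⟨k, m, hkm, hmin⟩ := hN N
  set τ₁ : ℝ := max C₁ 0 * Real.exp (-(c₁ * (m : ℝ) ^ α₁)) with hτ₁
  set τ₂ : ℝ := max C₂ 0 * Real.exp (-(c₂ * (k : ℝ) ^ α₂)) with hτ₂
  have hτ₁0 : 0 ≤ τ₁ := mul_nonneg (le_max_right _ _) (Real.exp_pos _).le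
  have hτ₂0 : 0 ≤ τ₂ := mul_nonneg (le_max_right _ _) (Real.exp_pos _).le
  have hA : ∀ b, μ {x | ¬ ∃ w : List S, w.length ≤ m ∧ run f w x = g b x} ≤
      ENNReal.ofReal τ₁ := fun b => (hT1 m b).trans (ENNReal.ofReal_le_ofReal
        (mul_le_mul_of_nonneg_right (le_max_left _ _) (Real.exp_pos _).le))
  have hB : μ {x | ¬ ∃ w : List S, w.length ≤ k ∧ run g w x = h a x} ≤
      ENNReal.ofReal τ₂ := (hT2 k a).trans (ENNReal.ofReal_le_ofReal
        (mul_le_mul_of_nonneg_right (le_max_left _ _) (Real.exp_pos _).le))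
  have hbd := bd_le μ f g hg m (ENNReal.ofReal τ₁) hA k
  have hpow : Real.exp (Real.log ((Fintype.card S : ℝ) + 1) * k) =
      ((Fintype.card S : ℝ) + 1) ^ k := by
    rw [mul_comm, Real.exp_nat_mul, Real.exp_log (by positivity)]
  have hpow2 : ((Fintype.card S : ℝ≥0∞) + 1) ^ k * ENNReal.ofReal τ₁ =
      ENNReal.ofReal (Real.exp (Real.log ((Fintype.card S : ℝ) + 1) * k) * τ₁) := by
    have hq : ENNReal.ofReal (((Fintype.card S : ℝ) + 1) ^ k * τ₁) =
        ENNReal.ofReal (((Fintype.card S : ℝ) + 1) ^ k) * ENNReal.ofReal τ₁ :=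
      ENNReal.ofReal_mul (by positivity)
    rw [hpow, hq, ENNReal.ofReal_pow (by positivity),
      ENNReal.ofReal_add (by positivity) zero_le_one, ENNReal.ofReal_one, ENNReal.ofReal_natCast]
  have hsub : {x | ¬ ∃ w : List S, w.length ≤ N ∧ run f w x = h a x} ⊆
      {x | ¬ ∃ w : List S, w.length ≤ k ∧ run g w x = h a x} ∪ Bd f g m k := by
    intro x hx
    by_contra hcon
    rw [Set.mem_union, not_or] at hcon
    obtain ⟨h2, h3⟩ := hcon
    rw [Set.mem_ofPred_eq, not_not] at h2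
    obtain ⟨w, hw, hwx⟩ := h2
    have h4 : ∃ u : List S, u.length ≤ w.length * m ∧ run f u x = run g w x := by
      by_contra h5
      exact h3 ⟨w, hw, h5⟩
    obtain ⟨u, hu, hux⟩ := h4
    exact hx ⟨u, hu.trans ((Nat.mul_le_mul_right m hw).trans hkm), hux.trans hwx⟩
  have hfin : μ {x | ¬ ∃ w : List S, w.length ≤ N ∧ run f w x = h a x} ≤
      ENNReal.ofReal (τ₂ + Real.exp (Real.log ((Fintype.card S : ℝ) + 1) * k) * τ₁) := by
    calc μ {x | ¬ ∃ w : List S, w.length ≤ N ∧ run f w x = h a x} ≤ _ := measure_mono hsub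
      _ ≤ _ := measure_union_le _ _
      _ ≤ ENNReal.ofReal τ₂ +
          ENNReal.ofReal (Real.exp (Real.log ((Fintype.card S : ℝ) + 1) * k) * τ₁) := by
          refine add_le_add hB ?_
          rw [← hpow2]
          exact le_trans le_self_add hbd
      _ = _ := (ENNReal.ofReal_add hτ₂0 (mul_nonneg (Real.exp_pos _).le hτ₁0)).symm
  refine le_trans ?_ (ENNReal.ofReal_le_ofReal hmin)
  rw [ENNReal.ofReal_min, ENNReal.ofReal_one]
  exact le_min prob_le_one hfin

end Pool.Agent.Helper12.OB
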